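import Pool.Agent.Helper85.AE.Sim
import Pool.Agent.Helper68.AE.GenS
import Pool.Agent.Helper77.AE.Ten

/-!
# Project MP_0f6f3f_an, layer AE: every simple real Lie algebra has a generating simple system

`smp_of_simple`: linearly independent restricted roots such that all restricted roots are `±` combinations with coefficients in `ℕ` form a system `Smp`.
`exists_smp`: for `L` simple of positive real rank there is one, with `finrank A` elements and nonpositive products.
-/

set_option autoImplicit false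

namespace Pool.Agent.Helper85.AE

open Pool.Agent.Helper96.SA Pool.Agent.Helper96.TO Pool.Agent.Helper77.AE

variable {L : Type} [LieRing L] [LieAlgebra ℝ L] {N : ℕ} {θ : L ≃ₗ⁅ℝ⁆ L} {b : Module.Basis (Fin N) ℝ L} {A : Submodule ℝ L}

/-- The difference of two members of a linearly independent family is not `±` a combination with coefficients in `ℕ`. -/
theorem not_comb {ι : Type} [Fintype ι] {al : ι → Module.Dual ℝ A} (hl : LinearIndependent ℝ al) {i j : ι} (hij : i ≠ j) (c : ι → ℕ) :
    al i - al j ≠ ∑ k, (c k : ℝ) • al k ∧ al i - al j ≠ -∑ k, (c k : ℝ) • al k := by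
  classical
  have h1 := Fintype.linearIndependent_iff.1 hl
  have key : ∀ d : ι → ℝ, al i - al j = ∑ k, d k • al k → d i = 1 ∧ d j = -1 := by
    intro d hd
    have h2 : ∑ k, (d k - (if k = i then 1 else 0) + (if k = j then 1 else 0)) • al k = 0 := by
      simp only [add_smul, sub_smul, Finset.sum_add_distrib, Finset.sum_sub_distrib, ite_smul, one_smul, zero_smul, Finset.sum_ite_eq', Finset.mem_univ, if_true]
      rw [← hd]
      abel
    have h3 := h1 _ h2 i
    have h4 := h1 _ h2 j
    rw [if_pos rfl, if_neg hij] at h3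
    rw [if_pos rfl, if_neg (Ne.symm hij)] at h4
    constructor <;> linarith
  constructor
  · intro h2
    have h3 := (key (fun k => (c k : ℝ)) h2).2
    have h4 : (0 : ℝ) ≤ c j := Nat.cast_nonneg _
    linarith
  · intro h2
    have h3 := (key (fun k => -(c k : ℝ)) (by rw [h2, ← Finset.sum_neg_distrib]; exact Finset.sum_congr rfl fun k _ => (neg_smul _ _).symm)).1
    have h4 : (0 : ℝ) ≤ c i := Nat.cast_nonneg _
    linarith

/-- A linearly independent family of functionals takes any values. -/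
theorem exists_val [FiniteDimensional ℝ A] {ι : Type} [Fintype ι] {al : ι → Module.Dual ℝ A} (hl : LinearIndependent ℝ al) (v : ι → ℝ) : ∃ H : A, ∀ i, al i H = v i := by
  classical
  have hsurj : Function.Surjective (LinearMap.pi al) := by
    rw [← LinearMap.range_eq_top]
    by_contra hne
    obtain ⟨f, hf, hf2⟩ := Submodule.exists_le_ker_of_lt_top _ (lt_top_iff_ne_top.2 hne)
    apply hf
    have h1 : ∑ i, f (Pi.single i 1) • al i = 0 := by
      ext a
      have h2 : f (LinearMap.pi al a) = 0 := hf2 (LinearMap.mem_range_self _ a)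
      rw [LinearMap.sum_apply, LinearMap.zero_apply, ← h2]
      have h3 : LinearMap.pi al a = ∑ i, (al i a) • (Pi.single i (1 : ℝ) : ι → ℝ) := by
        ext k
        simp [Finset.sum_apply, Pi.single_apply]
      rw [h3, map_sum]
      refine Finset.sum_congr rfl fun i _ => ?_
      rw [map_smul, LinearMap.smul_apply, smul_eq_mul, smul_eq_mul, mul_comm]
    have h4 := Fintype.linearIndependent_iff.1 hl _ h1
    refine LinearMap.pi_ext' fun i => ?_
    ext
    simpa using h4 i
  obtain ⟨H, hH⟩ := hsurj v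
  exact ⟨H, fun i => congrFun hH i⟩

theorem smp_of_simple [LieAlgebra.IsSimple ℝ L] (h : CartanBasis θ b) (hA : MaxFlat θ A) {τ : Module.Dual ℝ A ≃ₗ[ℝ] A}
    (hτ : ∀ (φ : Module.Dual ℝ A) (a : A), killingForm ℝ L (τ φ : L) (a : L) = φ a) {ι : Type} [Fintype ι] [Nonempty ι]
    {al : ι → Module.Dual ℝ A} (hl : LinearIndependent ℝ al) (hr : ∀ i, al i ∈ rootsL A)
    (hp : ∀ φ ∈ rootsL A, ∃ c : ι → ℕ, φ = ∑ i, (c i : ℝ) • al i ∨ φ = -∑ i, (c i : ℝ) • al i) : Smp A al := by
  have hF : Module.Finite ℝ L := Module.Finite.of_basis b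
  refine ⟨hr, ?_, exists_val hl _, Pool.Agent.Helper68.AE.gen_simple h hA hτ hl hr hp⟩
  intro i j hij
  refine ⟨fun h0 => ?_, fun h0 => ?_⟩
  · exact hij (hl.injective (sub_eq_zero.1 h0))
  · obtain ⟨c, hc | hc⟩ := hp _ h0
    · exact (not_comb hl hij c).1 hc
    · exact (not_comb hl hij c).2 hc

/-- Existence of a generating simple system. -/
theorem exists_smp [LieAlgebra.IsSimple ℝ L] (h : CartanBasis θ b) (hA : MaxFlat θ A) {τ : Module.Dual ℝ A ≃ₗ[ℝ] A}
    (hτ : ∀ (φ : Module.Dual ℝ A) (a : A), killingForm ℝ L (τ φ : L) (a : L) = φ a) (h0 : 0 < Module.finrank ℝ A) :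
    ∃ al : Fin (Module.finrank ℝ A) → Module.Dual ℝ A, Smp A al ∧ LinearIndependent ℝ al ∧
      (∀ i j, i ≠ j → al i (τ (al j)) ≤ 0) ∧
      ∀ φ ∈ rootsL A, ∃ c : Fin (Module.finrank ℝ A) → ℕ, φ = ∑ i, (c i : ℝ) • al i ∨ φ = -∑ i, (c i : ℝ) • al i := by
  obtain ⟨al, hl, hr, ho, hp⟩ := exists_simple h hA hτ
  have hN : Nonempty (Fin (Module.finrank ℝ A)) := ⟨⟨0, h0⟩⟩
  exact ⟨al, smp_of_simple h hA hτ hl hr hp, hl, ho, hp⟩

end Pool.Agent.Helper85.AE
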