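import Pool.Agent.Helper77.ST.ARefl

/-!
# Project MP_0f6f3f_an, layer AE, part S: simple systems of restricted roots in any rank

`exists_simple`: there are linearly independent restricted roots `al i`, `i < r` (`r` the rank), with pairwise scalar products `≤ 0`, such that every restricted root is `± ∑ i, c i • al i` with natural numbers `c i`.
-/

set_option autoImplicit false

namespace Pool.Agent.Helper85.AE

open Pool.Agent.Helper96.SA Pool.Agent.Helper96.TO Pool.Agent.Helper69.SLN Pool.Agent.Helper77.LA Pool.Agent.Helper77.TZ2 Pool.Agent.Helper77.ST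

/-- Vectors on one side of a hyperplane with pairwise scalar products `≤ 0` are linearly independent. -/
theorem obtuse_indep {E : Type*} [AddCommGroup E] [Module ℝ E] (B : E →ₗ[ℝ] E →ₗ[ℝ] ℝ)
    (hpos : ∀ u, u ≠ 0 → 0 < B u u) (f : E →ₗ[ℝ] ℝ) {ι : Type*} [Fintype ι] {a : ι → E} (hf : ∀ i, 0 < f (a i))
    (ho : ∀ i j, i ≠ j → B (a i) (a j) ≤ 0) : LinearIndependent ℝ a := by
  classical
  rw [Fintype.linearIndependent_iff]
  have key : ∀ c : ι → ℝ, ∑ i, c i • a i = 0 → ∀ i, c i ≤ 0 := by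
    intro c hc
    have h1 : ∑ i, max (c i) 0 • a i = ∑ i, max (-c i) 0 • a i := by
      rw [← sub_eq_zero, ← Finset.sum_sub_distrib, ← hc]
      refine Finset.sum_congr rfl fun i _ => ?_
      rw [← sub_smul]
      congr 1
      rcases le_total (c i) 0 with h | h
      · rw [max_eq_right h, max_eq_left (by linarith)]
        ring
      · rw [max_eq_left h, max_eq_right (by linarith)]
        ring
    have h2 : B (∑ i, max (c i) 0 • a i) (∑ i, max (c i) 0 • a i) ≤ 0 := by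
      nth_rewrite 2 [h1]
      rw [map_sum]
      refine Finset.sum_nonpos fun j _ => ?_
      rw [map_sum, LinearMap.sum_apply]
      refine Finset.sum_nonpos fun i _ => ?_
      rw [map_smul, map_smul, LinearMap.smul_apply, smul_eq_mul, smul_eq_mul]
      rcases eq_or_ne i j with rfl | hij
      · rcases le_total (c i) 0 with h | h
        · rw [max_eq_right h]
          simp
        · rw [max_eq_right (a := -c i) (by linarith)]
          simp
      · exact mul_nonpos_of_nonneg_of_nonpos (le_max_right _ _) (mul_nonpos_of_nonneg_of_nonpos (le_max_right _ _) (ho i j hij))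
    have h3 : ∑ i, max (c i) 0 • a i = 0 := by
      by_contra h
      exact absurd (hpos _ h) (not_lt.2 h2)
    have h4 : ∑ i, max (c i) 0 * f (a i) = 0 := by
      have := congrArg f h3
      rw [map_sum, map_zero] at this
      simpa only [map_smul, smul_eq_mul] using this
    intro i
    have h5 := (Finset.sum_eq_zero_iff_of_nonneg fun j _ => mul_nonneg (le_max_right (c j) 0) (hf j).le).1 h4 i (Finset.mem_univ i)
    have h6 : max (c i) 0 = 0 := (mul_eq_zero.1 h5).resolve_right (hf i).ne'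
    exact le_of_le_of_eq (le_max_left _ _) h6
  intro c hc i
  refine le_antisymm (key c hc i) ?_
  have h7 := key (fun i => -c i) (by
    rw [← neg_zero, ← hc, ← Finset.sum_neg_distrib]
    exact Finset.sum_congr rfl fun i _ => neg_smul _ _) i
  linarith

theorem core {E : Type*} [AddCommGroup E] [Module ℝ E] [Module.Finite ℝ E] (B : E →ₗ[ℝ] E →ₗ[ℝ] ℝ) (hsymm : ∀ u v, B u v = B v u)
    (hpos : ∀ u, u ≠ 0 → 0 < B u u) {R : Set E} (hfin : R.Finite) (h0 : (0 : E) ∉ R)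
    (hspan : Submodule.span ℝ R = ⊤)
    (hrefl : ∀ φ ∈ R, ∀ ψ ∈ R, ∃ n : ℤ, 2 * B φ ψ = n * B ψ ψ ∧ φ - (n : ℝ) • ψ ∈ R) :
    ∃ a : Fin (Module.finrank ℝ E) → E, LinearIndependent ℝ a ∧ (∀ i, a i ∈ R) ∧ (∀ i j, i ≠ j → B (a i) (a j) ≤ 0) ∧
      ∀ φ ∈ R, ∃ c : Fin (Module.finrank ℝ E) → ℕ, φ = ∑ i, (c i : ℝ) • a i ∨ φ = -∑ i, (c i : ℝ) • a i := by
  classical
  have hne : ∀ φ ∈ R, φ ≠ 0 := fun φ hφ h => h0 (h ▸ hφ)
  have hneg : ∀ φ ∈ R, -φ ∈ R := by
    intro φ hφ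
    obtain ⟨n, h1, h2⟩ := hrefl φ hφ φ hφ
    have h3 : (n : ℝ) = 2 := (mul_right_cancel₀ (hpos φ (hne φ hφ)).ne' h1).symm
    rw [h3, two_smul] at h2
    have e : φ - (φ + φ) = -φ := by abel
    rwa [e] at h2
  -- the generic functional
  obtain ⟨x, hx⟩ : ∃ x : E, ∀ φ ∈ R, B x φ ≠ 0 := by
    have hf1 : Finite R := hfin
    obtain ⟨x, hx⟩ := Module.Dual.exists_forall_ne_zero_of_forall_exists (K := ℝ) (M := E) (ι := R)
      (fun a => B (a : E)) (fun a => ⟨(a : E), (hpos _ (hne _ a.2)).ne'⟩)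
    refine ⟨x, fun φ hφ => ?_⟩
    rw [hsymm]
    exact hx ⟨φ, hφ⟩
  obtain ⟨P, hP⟩ : ∃ P : Set E, P = {φ | φ ∈ R ∧ 0 < B x φ} := ⟨_, rfl⟩
  have hPm : ∀ φ, φ ∈ P ↔ φ ∈ R ∧ 0 < B x φ := fun φ => by rw [hP]; rfl
  have hRP : ∀ φ ∈ R, φ ∈ P ∨ -φ ∈ P := by
    intro φ hφ
    rcases lt_or_gt_of_ne (hx φ hφ) with h | h
    · right
      rw [hPm, map_neg]
      exact ⟨hneg φ hφ, by linarith⟩
    · exact Or.inl ((hPm φ).2 ⟨hφ, h⟩)
  have hPfin : P.Finite := hfin.subset fun φ hφ => ((hPm φ).1 hφ).1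
  obtain ⟨D, hD⟩ : ∃ D : Set E, D = {φ | φ ∈ P ∧ ∀ a ∈ P, ∀ b ∈ P, φ ≠ a + b} := ⟨_, rfl⟩
  have hDm : ∀ φ, φ ∈ D ↔ φ ∈ P ∧ ∀ a ∈ P, ∀ b ∈ P, φ ≠ a + b := fun φ => by rw [hD]; rfl
  -- (1)
  have hcl : ∀ φ ∈ P, φ ∈ AddSubmonoid.closure D := by
    by_contra hcon
    push Not at hcon
    obtain ⟨φ, hφ, hφ'⟩ := hcon
    obtain ⟨ψ, ⟨hψ1, hψ2⟩, hmin⟩ := Set.exists_min_image {φ | φ ∈ P ∧ φ ∉ AddSubmonoid.closure D} (fun φ => B x φ)
      (hPfin.subset fun φ hφ => hφ.1) ⟨φ, hφ, hφ'⟩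
    have h1 : ψ ∉ D := fun h => hψ2 (AddSubmonoid.subset_closure h)
    rw [hDm] at h1
    push Not at h1
    obtain ⟨a, ha, b, hb, hab⟩ := h1 hψ1
    have ha' := ((hPm a).1 ha).2
    have hb' := ((hPm b).1 hb).2
    have hva : B x ψ = B x a + B x b := by rw [hab, map_add]
    have h2 : a ∈ AddSubmonoid.closure D := by
      by_contra h3
      have := hmin a ⟨ha, h3⟩
      linarith
    have h3 : b ∈ AddSubmonoid.closure D := by
      by_contra h3
      have := hmin b ⟨hb, h3⟩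
      linarith
    exact hψ2 (hab ▸ add_mem h2 h3)
  -- (2)
  have hobt : ∀ a ∈ D, ∀ b ∈ D, a ≠ b → B a b ≤ 0 := by
    intro a ha b hb hab
    by_contra hcon
    rw [not_le] at hcon
    obtain ⟨ha1, ha2⟩ := (hDm a).1 ha
    obtain ⟨hb1, hb2⟩ := (hDm b).1 hb
    obtain ⟨ha3, ha4⟩ := (hPm a).1 ha1
    obtain ⟨hb3, hb4⟩ := (hPm b).1 hb1
    have hsub : a - b ∉ R := by
      intro h1
      rcases hRP _ h1 with h2 | h2
      · exact ha2 b hb1 _ h2 (by abel)
      · rw [neg_sub] at h2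
        exact hb2 a ha1 _ h2 (by abel)
    obtain ⟨n, hn1, hn2⟩ := hrefl a ha3 b hb3
    obtain ⟨m, hm1, hm2⟩ := hrefl b hb3 a ha3
    rw [hsymm b a] at hm1
    have pa := hpos a (hne a ha3)
    have pb := hpos b (hne b hb3)
    have hn0 : 0 < (n : ℝ) := by
      by_contra h
      rw [not_lt] at h
      nlinarith
    have hm0 : 0 < (m : ℝ) := by
      by_contra h
      rw [not_lt] at h
      nlinarith
    have hn0' : 0 < n := by exact_mod_cast hn0
    have hm0' : 0 < m := by exact_mod_cast hm0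
    have hn3 : n ≠ 1 := by
      rintro rfl
      rw [Int.cast_one, one_smul] at hn2
      exact hsub hn2
    have hm3 : m ≠ 1 := by
      rintro rfl
      rw [Int.cast_one, one_smul] at hm2
      exact hsub (by have := hneg _ hm2; rwa [neg_sub] at this)
    have hn4 : (2 : ℝ) ≤ n := by exact_mod_cast (by omega : 2 ≤ n)
    have hm4 : (2 : ℝ) ≤ m := by exact_mod_cast (by omega : 2 ≤ m)
    have h1 : B b b ≤ B a b := by nlinarith
    have h2 : B a a ≤ B a b := by nlinarith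
    have h3 : B (a - b) (a - b) ≤ 0 := by
      rw [map_sub, map_sub, LinearMap.sub_apply, LinearMap.sub_apply, hsymm b a]
      linarith
    have h4 := hpos (a - b) (sub_ne_zero.2 hab)
    linarith
  -- (3) `D` is a basis
  have hDP : ∀ d ∈ D, d ∈ P := fun d hd => ((hDm d).1 hd).1
  have hDR : ∀ d ∈ D, d ∈ R := fun d hd => ((hPm d).1 (hDP d hd)).1
  have hDfin : D.Finite := hPfin.subset hDP
  have hDft : Fintype D := hDfin.fintype
  have hli : LinearIndependent ℝ (fun d : D => (d : E)) :=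
    obtuse_indep B hpos (B x) (fun d => ((hPm _).1 (hDP d d.2)).2) fun d e hde => hobt d d.2 e e.2 fun h => hde (Subtype.ext h)
  have hsp : ⊤ ≤ Submodule.span ℝ (Set.range fun d : D => (d : E)) := by
    rw [Subtype.range_coe, ← hspan]
    refine Submodule.span_le.2 fun φ hφ => ?_
    have h1 : ∀ φ ∈ P, φ ∈ Submodule.span ℝ D := fun φ hφ =>
      (AddSubmonoid.closure_le (S := (Submodule.span ℝ D).toAddSubmonoid)).2 Submodule.subset_span (hcl φ hφ)
    rcases hRP φ hφ with h | h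
    · exact h1 φ h
    · have := Submodule.neg_mem _ (h1 _ h)
      rwa [neg_neg] at this
  have hcard : Fintype.card D = Module.finrank ℝ E := by
    rw [Module.finrank_eq_card_basis (Module.Basis.mk hli hsp)]
  let e : Fin (Module.finrank ℝ E) ≃ D := (finCongr hcard.symm).trans (Fintype.equivFin D).symm
  refine ⟨fun i => (e i : E), hli.comp e e.injective, fun i => hDR _ (e i).2, fun i j hij =>
    hobt _ (e i).2 _ (e j).2 fun h => hij (e.injective (Subtype.ext h)), ?_⟩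
  have hPc : ∀ φ ∈ P, ∃ c : Fin (Module.finrank ℝ E) → ℕ, φ = ∑ i, (c i : ℝ) • (e i : E) := by
    intro φ hφ
    refine AddSubmonoid.closure_induction (motive := fun φ _ => ∃ c : Fin (Module.finrank ℝ E) → ℕ, φ = ∑ i, (c i : ℝ) • (e i : E))
      ?_ ?_ ?_ (hcl φ hφ)
    · intro d hd
      refine ⟨fun i => if i = e.symm ⟨d, hd⟩ then 1 else 0, ?_⟩
      rw [Finset.sum_eq_single (e.symm ⟨d, hd⟩)]
      · simp
      · intro i _ hi
        simp [hi]
      · intro h
        exact absurd (Finset.mem_univ _) h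
    · exact ⟨fun _ => 0, by simp⟩
    · rintro u v _ _ ⟨c, rfl⟩ ⟨d, rfl⟩
      refine ⟨fun i => c i + d i, ?_⟩
      rw [← Finset.sum_add_distrib]
      exact Finset.sum_congr rfl fun i _ => by rw [Nat.cast_add, add_smul]
  intro φ hφ
  rcases hRP φ hφ with h | h
  · obtain ⟨c, hc⟩ := hPc φ h
    exact ⟨c, Or.inl hc⟩
  · obtain ⟨c, hc⟩ := hPc _ h
    exact ⟨c, Or.inr (by rw [← hc, neg_neg])⟩

variable {L : Type} [LieRing L] [LieAlgebra ℝ L] {N : ℕ} {θ : L ≃ₗ⁅ℝ⁆ L} {b : Module.Basis (Fin N) ℝ L} {A : Submodule ℝ L}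

/-- **Simple systems of restricted roots.** -/
theorem exists_simple (h : CartanBasis θ b) (hA : MaxFlat θ A) {τ : Module.Dual ℝ A ≃ₗ[ℝ] A}
    (hτ : ∀ (φ : Module.Dual ℝ A) (a : A), killingForm ℝ L (τ φ : L) (a : L) = φ a) :
    ∃ al : Fin (Module.finrank ℝ A) → Module.Dual ℝ A, LinearIndependent ℝ al ∧ (∀ i, al i ∈ rootsL A) ∧
      (∀ i j, i ≠ j → al i (τ (al j)) ≤ 0) ∧
      ∀ φ ∈ rootsL A, ∃ c : Fin (Module.finrank ℝ A) → ℕ, φ = ∑ i, (c i : ℝ) • al i ∨ φ = -∑ i, (c i : ℝ) • al i := by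
  have hF : Module.Finite ℝ L := Module.Finite.of_basis b
  have hG : IsAdj b (autG b) := isAdj_autG
  have hfin : (rootsL A).Finite := by
    obtain ⟨cm, hinj, -, -, hrt, -⟩ := exists_cm h hG hA
    have h3 := (rt_finite (isFlat_map h hG hA)).preimage (f := cm) hinj.injOn
    refine h3.subset fun φ hφ => ?_
    exact (hrt φ).1 hφ
  let B : Module.Dual ℝ A →ₗ[ℝ] Module.Dual ℝ A →ₗ[ℝ] ℝ :=
    LinearMap.mk₂ ℝ (fun φ ψ => φ (τ ψ)) (fun _ _ _ => rfl) (fun _ _ _ => rfl)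
      (fun φ ψ χ => by rw [map_add, map_add]) (fun c φ ψ => by rw [map_smul, map_smul])
  have hB : ∀ φ ψ, B φ ψ = φ (τ ψ) := fun φ ψ => rfl
  have h1 := core B (fun φ ψ => by rw [hB, hB, tau_symm hτ])
    (fun φ hφ => by rw [hB]; exact tau_pos hτ h hA hφ) hfin
    (fun h0 => h0.1 rfl) (span_roots h hA) (fun φ hφ ψ hψ => by
      rw [hB, hB]
      exact refl h hA hτ hφ hψ)
  rw [Subspace.dual_finrank_eq] at h1
  exact h1

end Pool.Agent.Helper85.AE
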